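import Mathlib

/-! Bounds for the rank of `G = A B` with `A` abelian. -/

namespace MP_b83a82_al.Ab

open scoped commutatorElement

variable {G : Type*} [Group G]

/-- `[a b, b'] = [a, b']` if `b`, `b'` commute -/
private theorem ito_left {a b c : G} (h : b * c = c * b) : ⁅a * b, c⁆ = ⁅a, c⁆ := by
  have h' : b * c * b⁻¹ = c := by rw [h, mul_inv_cancel_right]
  calc ⁅a * b, c⁆ = a * (b * c * b⁻¹) * a⁻¹ * c⁻¹ := by
        rw [commutatorElement_def]; group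
    _ = ⁅a, c⁆ := by rw [h', commutatorElement_def]

/-- `[a, b a'] = [a, b]` if `a`, `a'` commute -/
private theorem ito_right {a b c : G} (h : a * c = c * a) : ⁅a, b * c⁆ = ⁅a, b⁆ := by
  have h' : c * a⁻¹ * c⁻¹ = a⁻¹ := by
    have : c * a⁻¹ = a⁻¹ * c := by
      rw [eq_inv_mul_iff_mul_eq, ← mul_assoc, h, mul_inv_cancel_right]
    rw [this, mul_inv_cancel_right]
  calc ⁅a, b * c⁆ = a * b * (c * a⁻¹ * c⁻¹) * b⁻¹ := by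
        rw [commutatorElement_def]; group
    _ = ⁅a, b⁆ := by rw [h', commutatorElement_def]

private theorem ito_conj_comm {x a : G} (h : x * a = a * x) : x * a * x⁻¹ = a := by
  rw [h, mul_inv_cancel_right]

private theorem ito_conj (x a b : G) : x * ⁅a, b⁆ * x⁻¹ = ⁅x * a * x⁻¹, x * b * x⁻¹⁆ := by
  simp only [commutatorElement_def]; group

/-- Ito: a product of two abelian subgroups is metabelian. -/
theorem ito {A B : Subgroup G} (hAB : ∀ g : G, ∃ a ∈ A, ∃ b ∈ B, a * b = g)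
    (hA : ∀ x ∈ A, ∀ y ∈ A, x * y = y * x) (hB : ∀ x ∈ B, ∀ y ∈ B, x * y = y * x) :
    ∀ x ∈ commutator G, ∀ y ∈ commutator G, x * y = y * x := by
  have hBA : ∀ g : G, ∃ b ∈ B, ∃ a ∈ A, b * a = g := by
    intro g
    obtain ⟨a, ha, b, hb, h⟩ := hAB g⁻¹
    exact ⟨b⁻¹, B.inv_mem hb, a⁻¹, A.inv_mem ha, by rw [← mul_inv_rev, h, inv_inv]⟩
  -- conjugation by an element of `A`
  have cA : ∀ a₁ ∈ A, ∀ b ∈ B, ∃ b₂ ∈ B, ∀ a ∈ A, a₁ * ⁅a, b⁆ * a₁⁻¹ = ⁅a, b₂⁆ := by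
    intro a₁ h₁ b hb
    obtain ⟨b₂, hb₂, a₂, ha₂, h⟩ := hBA (a₁ * b * a₁⁻¹)
    refine ⟨b₂, hb₂, fun a ha => ?_⟩
    rw [ito_conj, ito_conj_comm (hA a₁ h₁ a ha), ← h, ito_right (hA a ha a₂ ha₂)]
  have cB : ∀ b₁ ∈ B, ∀ a ∈ A, ∃ a₂ ∈ A, ∀ b ∈ B, b₁ * ⁅a, b⁆ * b₁⁻¹ = ⁅a₂, b⁆ := by
    intro b₁ h₁ a ha
    obtain ⟨a₂, ha₂, b₂, hb₂, h⟩ := hAB (b₁ * a * b₁⁻¹)
    refine ⟨a₂, ha₂, fun b hb => ?_⟩
    rw [ito_conj, ito_conj_comm (hB b₁ h₁ b hb), ← h, ito_left (hB b₂ hb₂ b hb)]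
  -- the commutators commute
  have key : ∀ a ∈ A, ∀ b ∈ B, ∀ a₁ ∈ A, ∀ b₁ ∈ B,
      ⁅a, b⁆ * ⁅a₁, b₁⁆ = ⁅a₁, b₁⁆ * ⁅a, b⁆ := by
    intro a ha b hb a₁ ha₁ b₁ hb₁
    obtain ⟨b₂, hb₂, h2⟩ := cA a₁⁻¹ (A.inv_mem ha₁) b hb
    obtain ⟨a₃, ha₃, h3⟩ := cB b₁⁻¹ (B.inv_mem hb₁) a ha
    have e1 : a₁⁻¹ * (b₁⁻¹ * ⁅a, b⁆ * b₁⁻¹⁻¹) * a₁⁻¹⁻¹ = ⁅a₃, b₂⁆ := by
      rw [h3 b hb, h2 a₃ ha₃]
    have e2 : b₁⁻¹ * (a₁⁻¹ * ⁅a, b⁆ * a₁⁻¹⁻¹) * b₁⁻¹⁻¹ = ⁅a₃, b₂⁆ := by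
      rw [h2 a ha, h3 b₂ hb₂]
    have e3 := e1.trans e2.symm
    simp only [inv_inv] at e3
    set c := ⁅a, b⁆ with hc
    have e4 : ⁅a₁, b₁⁆ * (b₁ * a₁ * (a₁⁻¹ * (b₁⁻¹ * c * b₁) * a₁) * a₁⁻¹ * b₁⁻¹)
        = ⁅a₁, b₁⁆ * c := by group
    have e5 : ⁅a₁, b₁⁆ * (b₁ * a₁ * (b₁⁻¹ * (a₁⁻¹ * c * a₁) * b₁) * a₁⁻¹ * b₁⁻¹)
        = c * ⁅a₁, b₁⁆ := by
      rw [commutatorElement_def]; group
    rw [← e5, ← e3, e4]
  set C : Set G := {g | ∃ a ∈ A, ∃ b ∈ B, ⁅a, b⁆ = g} with hC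
  set N : Subgroup G := Subgroup.closure C with hN
  have hsub : ∀ a ∈ A, ∀ b ∈ B, ⁅a, b⁆ ∈ N := fun a ha b hb =>
    Subgroup.subset_closure ⟨a, ha, b, hb, rfl⟩
  -- invariance
  have nA : ∀ a₁ ∈ A, ∀ n ∈ N, a₁ * n * a₁⁻¹ ∈ N := by
    intro a₁ ha₁ n hn
    induction hn using Subgroup.closure_induction with
    | mem x hx =>
      obtain ⟨a, ha, b, hb, rfl⟩ := hx
      obtain ⟨b₂, hb₂, h2⟩ := cA a₁ ha₁ b hb
      rw [h2 a ha]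
      exact hsub a ha b₂ hb₂
    | one => simp [N.one_mem]
    | mul x y _ _ hx hy =>
      have : a₁ * (x * y) * a₁⁻¹ = (a₁ * x * a₁⁻¹) * (a₁ * y * a₁⁻¹) := by group
      rw [this]
      exact N.mul_mem hx hy
    | inv x _ hx =>
      have : a₁ * x⁻¹ * a₁⁻¹ = (a₁ * x * a₁⁻¹)⁻¹ := by group
      rw [this]
      exact N.inv_mem hx
  have hcomm : ∀ g h : G, ⁅g, h⁆ ∈ N := by
    intro g h
    obtain ⟨a, ha, b, hb, rfl⟩ := hAB g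
    obtain ⟨a', ha', b', hb', rfl⟩ := hAB h
    have e1 : ⁅a * b, a' * b'⁆ = (a * ⁅b, a' * b'⁆ * a⁻¹) * ⁅a, a' * b'⁆ := by
      simp only [commutatorElement_def]; group
    have e2 : ⁅a, a' * b'⁆ = a' * ⁅a, b'⁆ * a'⁻¹ := by
      have : ⁅a, a' * b'⁆ = (a * a' * a⁻¹) * (⁅a, b'⁆) * a'⁻¹ := by
        simp only [commutatorElement_def]; group
      rw [this, ito_conj_comm (hA a ha a' ha')]
    have e3 : ⁅b, a' * b'⁆ = ⁅a', b⁆⁻¹ := by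
      rw [commutatorElement_inv]
      exact ito_right (hB b hb b' hb')
    rw [e1, e2, e3]
    exact N.mul_mem (nA a ha _ (N.inv_mem (hsub a' ha' b hb))) (nA a' ha' _ (hsub a ha b' hb'))
  have hle : commutator G ≤ N := by
    rw [commutator_def, Subgroup.commutator_le]
    exact fun g _ h _ => hcomm g h
  -- commutativity
  have k1 : ∀ x ∈ N, ∀ a ∈ A, ∀ b ∈ B, x * ⁅a, b⁆ = ⁅a, b⁆ * x := by
    intro x hx a ha b hb
    induction hx using Subgroup.closure_induction with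
    | mem x hx =>
      obtain ⟨a', ha', b', hb', rfl⟩ := hx
      exact key a' ha' b' hb' a ha b hb
    | one => simp
    | mul x y _ _ hx hy => rw [mul_assoc, hy, ← mul_assoc, hx, mul_assoc]
    | inv x _ hx =>
      rw [inv_mul_eq_iff_eq_mul, ← mul_assoc, hx, mul_inv_cancel_right]
  have k2 : ∀ y ∈ N, ∀ x ∈ N, x * y = y * x := by
    intro y hy x hx
    induction hy using Subgroup.closure_induction with
    | mem y hy =>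
      obtain ⟨a, ha, b, hb, rfl⟩ := hy
      exact k1 x hx a ha b hb
    | one => simp
    | mul y z _ _ hy hz => rw [← mul_assoc, hy, mul_assoc, hz, ← mul_assoc]
    | inv y _ hy =>
      rw [eq_inv_mul_iff_mul_eq, ← mul_assoc, ← hy, mul_inv_cancel_right]
  exact fun x hx y hy => k2 y (hle hy) x (hle hx)

end MP_b83a82_al.Ab
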