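import Pool.Agent.Lib.MP_b83a82_al.Ab.Absec
import Pool.Agent.Lib.MP_b83a82_al.Ab.Ito

/-! Bounds for the rank of `G = A B` with `A` abelian. -/

namespace MP_b83a82_al.Ab

open scoped commutatorElement

variable {G : Type*} [Group G]

private theorem elsec_sup {p : ℕ} {K H W : Subgroup G} (hc : commutator G ≤ K ⊔ W)
    (hS : ElSec p K H) : ElSec p (K ⊔ W) (H ⊔ W) := by
  have hker : (Abelianization.of : G →* Abelianization G).ker ≤ K ⊔ W := by
    rw [Abelianization.ker_of]; exact hc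
  have hcm := Subgroup.comap_map_eq_self hker
  have hP : H ⊔ W ≤ (((K ⊔ W).map (Abelianization.of : G →* Abelianization G)).comap
      ((powMonoidHom p).comp (Abelianization.of : G →* Abelianization G))) := by
    refine sup_le ?_ ?_
    · intro x hx
      rw [Subgroup.mem_comap, MonoidHom.comp_apply, powMonoidHom_apply, ← map_pow]
      exact Subgroup.mem_map_of_mem _ (Subgroup.mem_sup_left (hS.2.1 x hx))
    · intro x hx
      rw [Subgroup.mem_comap, MonoidHom.comp_apply, powMonoidHom_apply, ← map_pow]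
      exact Subgroup.mem_map_of_mem _ (Subgroup.mem_sup_right (W.pow_mem hx p))
  refine ⟨sup_le_sup_right hS.1 W, ?_, ?_⟩
  · intro h hh
    have h1 := hP hh
    rw [Subgroup.mem_comap, MonoidHom.comp_apply, powMonoidHom_apply, ← map_pow] at h1
    have h2 : h ^ p ∈ ((K ⊔ W).map (Abelianization.of : G →* Abelianization G)).comap
        (Abelianization.of : G →* Abelianization G) := h1
    rwa [hcm] at h2
  · intro h _ h' _
    exact hc (Subgroup.commutator_mem_commutator (Subgroup.mem_top h) (Subgroup.mem_top h'))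

private theorem normal_of_ge {W : Subgroup G} (hW : commutator G ≤ W) : W.Normal := by
  refine ⟨fun w hw g => ?_⟩
  have h1 : ⁅g, w⁆ ∈ W :=
    hW (Subgroup.commutator_mem_commutator (Subgroup.mem_top g) (Subgroup.mem_top w))
  have h2 := W.mul_mem h1 hw
  rwa [commutatorElement_def, inv_mul_cancel_right] at h2

private theorem swap {A B : Subgroup G} (hAB : ∀ g : G, ∃ a ∈ A, ∃ b ∈ B, a * b = g) :
    ∀ g : G, ∃ b ∈ B, ∃ a ∈ A, b * a = g := by
  intro g
  obtain ⟨a, ha, b, hb, h⟩ := hAB g⁻¹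
  refine ⟨b⁻¹, B.inv_mem hb, a⁻¹, A.inv_mem ha, ?_⟩
  rw [← mul_inv_rev, h, inv_inv]

/-- sections above the commutator subgroup -/
theorem rk_above [Finite G] {p : ℕ} [Fact p.Prime] (hG : IsPGroup p G) {A B : Subgroup G}
    (hAB : ∀ g : G, ∃ a ∈ A, ∃ b ∈ B, a * b = g)
    {a b : ℕ} (ha : RkLE p A a) (hb : RkLE p B b) {K H : Subgroup G}
    (hK : commutator G ≤ K) (hS : ElSec p K H) : K.relIndex H ≤ p ^ (a + b) := by
  set W : Subgroup G := A ⊔ commutator G with hW
  have hcW : commutator G ≤ W := le_sup_right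
  haveI : W.Normal := normal_of_ge hcW
  have hS1 : ElSec p (K ⊔ W) (H ⊔ W) := elsec_sup (hK.trans le_sup_left) hS
  have hAW : A ≤ W := le_sup_left
  have h1 : (K ⊔ W).relIndex (H ⊔ W) ≤ p ^ b := by
    have h2 : (K ⊔ W).relIndex (H ⊔ W) ≤ (K ⊔ W).relIndex ((H ⊔ W) ⊓ B) := by
      refine relIndex_le_of_cover inf_le_left ?_
      intro t ht
      obtain ⟨y, hy, x, hx, rfl⟩ := swap hAB t
      have hx1 : x ∈ H ⊔ W := Subgroup.mem_sup_right (hAW hx)
      refine ⟨y, ⟨?_, hy⟩, ?_⟩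
      · have h3 := (H ⊔ W).mul_mem ht ((H ⊔ W).inv_mem hx1)
        rwa [mul_inv_cancel_right] at h3
      · rw [inv_mul_cancel_left]
        exact Subgroup.mem_sup_right (hAW hx)
    have h3 : (K ⊔ W).relIndex ((H ⊔ W) ⊓ B) ≤ ((K ⊔ W) ⊓ B).relIndex ((H ⊔ W) ⊓ B) :=
      relIndex_anti_left inf_le_left _
    exact (h2.trans h3).trans (hb _ _ inf_le_right (hS1.inf B))
  have h4 : (K ⊓ W).relIndex (H ⊓ W) ≤ p ^ a := by
    have h5 : (K ⊓ W).relIndex (H ⊓ W) ≤ (K ⊓ W).relIndex ((H ⊓ W) ⊓ A) := by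
      refine relIndex_le_of_cover inf_le_left ?_
      intro t ht
      have htW : t ∈ A ⊔ commutator G := ht.2
      obtain ⟨x, hx, c, hc, rfl⟩ := (Subgroup.mem_sup_of_normal_right).mp htW
      have hc2 : c ∈ K ⊓ W := ⟨hK hc, hcW hc⟩
      have hc3 : c ∈ H ⊓ W := ⟨hS.1 hc2.1, hc2.2⟩
      refine ⟨x, ⟨?_, hx⟩, ?_⟩
      · have h6 := (H ⊓ W).mul_mem ht ((H ⊓ W).inv_mem hc3)
        rwa [mul_inv_cancel_right] at h6
      · rw [inv_mul_cancel_left]
        exact hc2
    have h7 : (K ⊓ W).relIndex ((H ⊓ W) ⊓ A) ≤ ((K ⊓ W) ⊓ A).relIndex ((H ⊓ W) ⊓ A) :=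
      relIndex_anti_left inf_le_left _
    exact (h5.trans h7).trans (ha _ _ inf_le_right ((hS.inf W).inf A))
  calc K.relIndex H ≤ (K ⊔ W).relIndex (H ⊔ W) * (K ⊓ W).relIndex (H ⊓ W) :=
        relIndex_le_sup_mul_inf hS.1 W
    _ ≤ p ^ b * p ^ a := Nat.mul_le_mul h1 h4
    _ = p ^ (a + b) := by rw [← pow_add, add_comm]

theorem rk_abelian [Finite G] {p : ℕ} [Fact p.Prime] (hG : IsPGroup p G) {A B : Subgroup G}
    (hAB : ∀ g : G, ∃ a ∈ A, ∃ b ∈ B, a * b = g) (hA : ∀ x ∈ A, ∀ y ∈ A, x * y = y * x)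
    (hB : ∀ x ∈ B, ∀ y ∈ B, x * y = y * x) {a b : ℕ} (ha : RkLE p A a) (hb : RkLE p B b) :
    RkLE p (⊤ : Subgroup G) (2 * (a + b) + 16 * min a b) := by
  intro K H _ hS
  have hM := ito hAB hA hB
  have hp : p.Prime := Fact.out
  have h1 : (K ⊔ commutator G).relIndex (H ⊔ commutator G) ≤ p ^ (a + b) :=
    rk_above hG hAB ha hb le_sup_right (elsec_sup le_sup_right hS)
  let V : Subgroup G :=
    { carrier := {x | x ∈ commutator G ∧ x ^ p = 1}
      mul_mem' := by
        rintro x y ⟨hx, hx'⟩ ⟨hy, hy'⟩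
        refine ⟨(commutator G).mul_mem hx hy, ?_⟩
        have hc : Commute x y := hM x hx y hy
        rw [hc.mul_pow, hx', hy', one_mul]
      one_mem' := ⟨(commutator G).one_mem, one_pow p⟩
      inv_mem' := by
        rintro x ⟨hx, hx'⟩
        exact ⟨(commutator G).inv_mem hx, by rw [inv_pow, hx', inv_one]⟩ }
  have hV : ∀ x : G, x ∈ V ↔ x ∈ commutator G ∧ x ^ p = 1 := fun x => Iff.rfl
  have hVn : V.Normal := by
    refine ⟨fun x hx g => ?_⟩
    rw [hV] at hx ⊢
    refine ⟨(inferInstance : (commutator G).Normal).conj_mem x hx.1 g, ?_⟩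
    rw [conj_pow, hx.2, mul_one, mul_inv_cancel]
  have hVc : ∀ x ∈ V, ∀ y ∈ V, x * y = y * x := fun x hx y hy =>
    hM x ((hV x).mp hx).1 y ((hV y).mp hy).1
  have hVp : ∀ x ∈ V, x ^ p = 1 := fun x hx => ((hV x).mp hx).2
  have h2 : (K ⊓ commutator G).relIndex (H ⊓ commutator G) ≤ Nat.card V :=
    sec_le_torsion hM hV inf_le_right (hS.inf (commutator G))
  have h3 : Nat.card V ≤ p ^ (17 * a + b) := normal_bound hG hAB hA ha hb hVn hVc hVp
  have h4 : Nat.card V ≤ p ^ (17 * b + a) := normal_bound hG (swap hAB) hB hb ha hVn hVc hVp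
  have h5 : Nat.card V ≤ p ^ (a + b + 16 * min a b) := by
    rcases le_total a b with hab | hab
    · refine h3.trans (Nat.pow_le_pow_right hp.pos ?_)
      rw [min_eq_left hab]; omega
    · refine h4.trans (Nat.pow_le_pow_right hp.pos ?_)
      rw [min_eq_right hab]; omega
  calc K.relIndex H ≤ (K ⊔ commutator G).relIndex (H ⊔ commutator G) *
        (K ⊓ commutator G).relIndex (H ⊓ commutator G) := relIndex_le_sup_mul_inf hS.1 _
    _ ≤ p ^ (a + b) * p ^ (a + b + 16 * min a b) := Nat.mul_le_mul h1 (h2.trans h5)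
    _ = p ^ (2 * (a + b) + 16 * min a b) := by rw [← pow_add]; ring_nf

end MP_b83a82_al.Ab
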