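import Pool.Agent.Lib.MP_b83a82_al.Main

/-! Elementary abelian normal subgroups and sections of `G = A B` with `A` abelian. -/

namespace MP_b83a82_al.Ab

open scoped commutatorElement

variable {G : Type*} [Group G]

/-- ranks of images -/
theorem RkLE.map {G' : Type*} [Group G'] [Finite G] [Finite G'] {p : ℕ} {A : Subgroup G} {a : ℕ}
    (h : RkLE p A a) (f : G →* G') : RkLE p (A.map f) a := by
  intro K H hHA hS
  obtain ⟨h1, h2, h3⟩ := hS
  have hK : K.comap f ⊓ (A ⊓ H.comap f) = A ⊓ K.comap f := by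
    ext x
    simp only [Subgroup.mem_inf, Subgroup.mem_comap]
    constructor
    · rintro ⟨a1, a2, -⟩
      exact ⟨a2, a1⟩
    · rintro ⟨a1, a2⟩
      exact ⟨a2, a1, h1 a2⟩
  have hH : (A ⊓ H.comap f).map f = H := by
    ext y
    constructor
    · rintro ⟨x, ⟨-, hx⟩, rfl⟩
      exact hx
    · intro hy
      obtain ⟨x, hx, rfl⟩ := hHA hy
      exact ⟨x, ⟨hx, hy⟩, rfl⟩
  have hSec : ElSec p (A ⊓ K.comap f) (A ⊓ H.comap f) := by
    refine ⟨?_, ?_, ?_⟩
    · rintro x ⟨a1, a2⟩
      exact ⟨a1, h1 a2⟩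
    · rintro x ⟨a1, a2⟩
      refine ⟨A.pow_mem a1 p, ?_⟩
      change f (x ^ p) ∈ K
      rw [map_pow]
      exact h2 _ a2
    · rintro x ⟨a1, a2⟩ y ⟨b1, b2⟩
      refine ⟨?_, ?_⟩
      · rw [commutatorElement_def]
        exact A.mul_mem (A.mul_mem (A.mul_mem a1 b1) (A.inv_mem a1)) (A.inv_mem b1)
      · change f ⁅x, y⁆ ∈ K
        rw [map_commutatorElement]
        exact h3 _ a2 _ b2
  calc K.relIndex H = K.relIndex ((A ⊓ H.comap f).map f) := by rw [hH]
    _ = (K.comap f).relIndex (A ⊓ H.comap f) := (Subgroup.relIndex_comap K f _).symm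
    _ = (K.comap f ⊓ (A ⊓ H.comap f)).relIndex (A ⊓ H.comap f) :=
        (Subgroup.inf_relIndex_right _ _).symm
    _ = (A ⊓ K.comap f).relIndex (A ⊓ H.comap f) := by rw [hK]
    _ ≤ p ^ a := h _ _ inf_le_left hSec

/-- elementary abelian sections of an abelian group -/
theorem sec_le_torsion [Finite G] {p : ℕ} [Fact p.Prime] {M : Subgroup G}
    (hM : ∀ x ∈ M, ∀ y ∈ M, x * y = y * x) {V : Subgroup G}
    (hV : ∀ x : G, x ∈ V ↔ x ∈ M ∧ x ^ p = 1) {K H : Subgroup G} (hHM : H ≤ M)
    (hS : ElSec p K H) : K.relIndex H ≤ Nat.card V := by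
  -- the power homomorphism
  let φ : H →* H :=
    { toFun := fun x => x ^ p
      map_one' := one_pow p
      map_mul' := fun x y => by
        have hc : Commute x y := Subtype.ext (hM x.1 (hHM x.2) y.1 (hHM y.2))
        exact hc.mul_pow p }
  have e1 : Nat.card φ.ker * Nat.card φ.range = Nat.card H := by
    rw [← Subgroup.index_ker φ]
    exact Subgroup.card_mul_index _
  have e2 : Nat.card φ.range * φ.range.index = Nat.card H := Subgroup.card_mul_index _
  have hpos : 0 < Nat.card φ.range := Nat.card_pos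
  have e3 : φ.range.index = Nat.card φ.ker := by
    apply Nat.eq_of_mul_eq_mul_left hpos
    rw [e2, ← e1, mul_comm]
  have hle : φ.range ≤ K.subgroupOf H := by
    rintro y ⟨x, rfl⟩
    rw [Subgroup.mem_subgroupOf]
    exact hS.2.1 x.1 x.2
  have hidx : K.relIndex H ≤ φ.range.index :=
    Nat.le_of_dvd (Nat.pos_of_ne_zero Subgroup.FiniteIndex.index_ne_zero)
      (Subgroup.index_dvd_of_le hle)
  refine hidx.trans (e3.le.trans ?_)
  let g : φ.ker → V := fun x => ⟨x.1.1, (hV _).2 ⟨hHM x.1.2, by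
    have h1 : x.1 ^ p = 1 := x.2
    have h2 := congrArg (Subtype.val) h1
    simpa using h2⟩⟩
  refine Nat.card_le_card_of_injective g ?_
  intro x y hxy
  have h3 := congrArg (Subtype.val) hxy
  exact Subtype.ext (Subtype.ext h3)

end MP_b83a82_al.Ab
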