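import Pool.Agent.Lib.MP_b83a82_al.Ab.NormalBound
import Pool.Agent.Lib.MP_b83a82_al.Ab.SecMap

/-! Elementary abelian normal subgroups and sections of `G = A B` with `A` abelian. -/

namespace MP_b83a82_al.Ab

open scoped commutatorElement

variable {G : Type*} [Group G]

/-- elementary abelian sections between two normal subgroups `Y ≤ X` with `X / Y` abelian -/
theorem absec_bound [Finite G] {p : ℕ} [Fact p.Prime] (hG : IsPGroup p G) {A B : Subgroup G}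
    (hAB : ∀ g : G, ∃ a ∈ A, ∃ b ∈ B, a * b = g) (hA : ∀ x ∈ A, ∀ y ∈ A, x * y = y * x)
    {a b : ℕ} (ha : RkLE p A a) (hb : RkLE p B b) {Y X : Subgroup G} (hY : Y.Normal)
    (hX : X.Normal) (hYX : Y ≤ X) (hXY : ∀ x ∈ X, ∀ y ∈ X, ⁅x, y⁆ ∈ Y) {K H : Subgroup G}
    (hYK : Y ≤ K) (hHX : H ≤ X) (hS : ElSec p K H) : K.relIndex H ≤ p ^ (17 * a + b) := by
  set π : G →* G ⧸ Y := QuotientGroup.mk' Y with hπ
  have hsurj : Function.Surjective π := QuotientGroup.mk'_surjective Y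
  have hker : ∀ x : G, π x = 1 ↔ x ∈ Y := fun x => QuotientGroup.eq_one_iff x
  have hQ : IsPGroup p (G ⧸ Y) := hG.to_quotient Y
  have hAB' : ∀ g : G ⧸ Y, ∃ a ∈ A.map π, ∃ b ∈ B.map π, a * b = g := by
    intro g
    obtain ⟨g, rfl⟩ := hsurj g
    obtain ⟨a, ha, b, hb, rfl⟩ := hAB g
    exact ⟨π a, ⟨a, ha, rfl⟩, π b, ⟨b, hb, rfl⟩, (map_mul π a b).symm⟩
  have hA' : ∀ x ∈ A.map π, ∀ y ∈ A.map π, x * y = y * x := by
    rintro _ ⟨x, hx, rfl⟩ _ ⟨y, hy, rfl⟩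
    rw [← map_mul, ← map_mul, hA x hx y hy]
  have ha' : RkLE p (A.map π) a := RkLE.map ha π
  have hb' : RkLE p (B.map π) b := RkLE.map hb π
  have hMc : ∀ x ∈ X.map π, ∀ y ∈ X.map π, x * y = y * x := by
    rintro _ ⟨x, hx, rfl⟩ _ ⟨y, hy, rfl⟩
    have h1 : π ⁅x, y⁆ = 1 := (hker _).2 (hXY x hx y hy)
    rw [map_commutatorElement, commutatorElement_eq_one_iff_mul_comm] at h1
    exact h1
  have hMn : (X.map π).Normal := hX.map π hsurj
  let V : Subgroup (G ⧸ Y) :=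
    { carrier := {x | x ∈ X.map π ∧ x ^ p = 1}
      one_mem' := ⟨one_mem _, one_pow p⟩
      mul_mem' := by
        rintro x y ⟨hx, hxp⟩ ⟨hy, hyp⟩
        refine ⟨mul_mem hx hy, ?_⟩
        have hc : Commute x y := hMc x hx y hy
        rw [hc.mul_pow, hxp, hyp, one_mul]
      inv_mem' := by
        rintro x ⟨hx, hxp⟩
        refine ⟨inv_mem hx, ?_⟩
        rw [inv_pow, hxp, inv_one] }
  have hVmem : ∀ x : G ⧸ Y, x ∈ V ↔ x ∈ X.map π ∧ x ^ p = 1 := fun x => Iff.rfl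
  have hVn : V.Normal := by
    refine ⟨?_⟩
    rintro x ⟨hx, hxp⟩ g
    refine ⟨hMn.conj_mem x hx g, ?_⟩
    rw [conj_pow, hxp, mul_one, mul_inv_cancel]
  have hV1 : Nat.card V ≤ p ^ (17 * a + b) :=
    normal_bound hQ hAB' hA' ha' hb' hVn (fun x hx y hy => hMc x hx.1 y hy.1)
      (fun x hx => hx.2)
  obtain ⟨hKH, hHp, hHc⟩ := hS
  have hS' : ElSec p (K.map π) (H.map π) := by
    refine ⟨Subgroup.map_mono hKH, ?_, ?_⟩
    · rintro _ ⟨h, hh, rfl⟩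
      exact ⟨h ^ p, hHp h hh, map_pow π h p⟩
    · rintro _ ⟨h, hh, rfl⟩ _ ⟨h', hh', rfl⟩
      exact ⟨⁅h, h'⁆, hHc h hh h' hh', map_commutatorElement π h h'⟩
  have h2 := sec_le_torsion (p := p) hMc hVmem (Subgroup.map_mono hHX) hS'
  have h3 : (K.map π).relIndex (H.map π) = K.relIndex H := by
    rw [Subgroup.relIndex_map_map, hπ, QuotientGroup.ker_mk', sup_of_le_left hYK,
      sup_of_le_left (hYK.trans hKH)]
  rw [h3] at h2
  exact h2.trans hV1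

end MP_b83a82_al.Ab
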