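import Pool.Agent.Lib.MP_b83a82_al.Ab.Descent

/-! Abelian `p`-groups acting transitively by affine maps. -/

namespace MP_b83a82_al.Ab

open Module

theorem affine_bound (p : ℕ) [Fact p.Prime] {H : Type*} [CommGroup H] [Finite H]
    (hH : IsPGroup p H) {W : Type*} [AddCommGroup W] [Module (ZMod p) W] [Finite W]
    (ρ : H →* (W →ₗ[ZMod p] W)) (δ : H → W) (hδ : ∀ g h : H, δ (g * h) = δ g + ρ g (δ h))
    (hs : Function.Surjective δ) :
    ∃ K L : Subgroup H, K ≤ L ∧ (∀ h ∈ L, h ^ p ∈ K) ∧ Nat.card W ≤ (K.relIndex L) ^ 17 := by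
  classical
  have hδ1 : δ 1 = 0 := by
    have h := hδ 1 1
    rw [mul_one, map_one, Module.End.one_apply] at h
    have h2 : δ 1 + 0 = δ 1 + δ 1 := by rw [add_zero]; exact h
    exact (add_left_cancel h2).symm
  -- the linear representation on `W × ZMod p`
  let r : H →* Module.End (ZMod p) (W × ZMod p) :=
    { toFun := fun h =>
        { toFun := fun v => (ρ h v.1 + v.2 • δ h, v.2)
          map_add' := by
            intro x y
            ext
            · simp only [Prod.fst_add, Prod.snd_add, map_add, add_smul]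
              abel
            · simp
          map_smul' := by
            intro c x
            ext
            · simp only [Prod.smul_fst, Prod.smul_snd, map_smul, RingHom.id_apply, smul_add,
                smul_smul, smul_eq_mul]
            · simp }
      map_one' := by
        apply LinearMap.ext
        intro v
        change (ρ 1 v.1 + v.2 • δ 1, v.2) = v
        rw [hδ1, smul_zero, add_zero, map_one]
        rfl
      map_mul' := by
        intro g h
        apply LinearMap.ext
        intro v
        change (ρ (g * h) v.1 + v.2 • δ (g * h), v.2) =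
          (ρ g (ρ h v.1 + v.2 • δ h) + v.2 • δ g, v.2)
        rw [hδ, map_mul, Module.End.mul_apply, map_add, map_smul, smul_add]
        ext
        · simp only
          abel
        · rfl }
  have hr : ∀ (h : H) (v : W × ZMod p), r h v = (ρ h v.1 + v.2 • δ h, v.2) := fun _ _ => rfl
  set e : W × ZMod p := (0, 1) with he
  have hre : ∀ h : H, r h e = (δ h, 1) := by
    intro h
    rw [hr, he]
    simp
  let φ : MonoidAlgebra (ZMod p) H →ₐ[ZMod p] Module.End (ZMod p) (W × ZMod p) :=
    MonoidAlgebra.lift (ZMod p) _ H r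
  let R := MonoidAlgebra (ZMod p) H ⧸ (RingHom.ker φ)
  let ψ : R →ₐ[ZMod p] Module.End (ZMod p) (W × ZMod p) := Ideal.kerLiftAlg φ
  have hψi : Function.Injective ψ := Ideal.kerLiftAlg_injective φ
  let t : H → R := fun h => Ideal.Quotient.mk _ (MonoidAlgebra.of (ZMod p) H h)
  have hψt : ∀ h, ψ (t h) = r h := by
    intro h
    change φ (MonoidAlgebra.of (ZMod p) H h) = r h
    exact MonoidAlgebra.lift_of _ _
  have htm : ∀ g h, t (g * h) = t g * t h := by
    intro g h
    change Ideal.Quotient.mk _ _ = _
    rw [map_mul, map_mul]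
  have ht1 : t 1 = 1 := by
    change Ideal.Quotient.mk _ _ = _
    rw [map_one, map_one]
  have htp : ∀ (h : H) (n : ℕ), t (h ^ n) = t h ^ n := by
    intro h n
    induction n with
    | zero => rw [pow_zero, pow_zero, ht1]
    | succ n ih => rw [pow_succ, pow_succ, htm, ih]
  -- evaluation at `e`
  let ev : R →ₗ[ZMod p] (W × ZMod p) := (LinearMap.applyₗ e).comp ψ.toLinearMap
  have hev : ∀ x, ev x = ψ x e := fun _ => rfl
  have hevi : ∀ x, ev x = 0 → x = 0 := by
    intro x hx
    apply hψi
    rw [map_zero]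
    apply LinearMap.ext
    intro v
    obtain ⟨h, hh⟩ := hs v.1
    have hv : v = r h e + (v.2 - 1) • e := by
      rw [hre, hh, he]
      ext
      · simp
      · simp
    have h2 : ψ x (r h e) = 0 := by
      rw [← hψt, ← Module.End.mul_apply, ← map_mul, mul_comm x (t h), map_mul,
        Module.End.mul_apply, ← hev x, hx, map_zero]
    rw [hv, map_add, map_smul, h2, ← hev x, hx, smul_zero, add_zero]
    rfl
  have hevinj : Function.Injective ev := (injective_iff_map_eq_zero ev).mpr hevi
  have hevt : ∀ h, ev (t h) = (δ h, 1) := by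
    intro h
    rw [hev, hψt, hre]
  have hev1 : ev 1 = e := by
    rw [hev, map_one]
    rfl
  have hstd : ∀ x : R, ∃ h : H, x = algebraMap (ZMod p) R (ev x).2 + (t h - 1) := by
    intro x
    obtain ⟨h, hh⟩ := hs (ev x).1
    refine ⟨h, ?_⟩
    apply hevinj
    rw [map_add, map_sub, hevt, hev1, hh, Algebra.algebraMap_eq_smul_one, map_smul, hev1, he]
    ext
    · simp
    · simp
  -- finiteness and characteristic
  have hfinR : Finite R := Finite.of_injective ev hevinj
  have hnt : Nontrivial R := by
    refine ⟨⟨0, 1, ?_⟩⟩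
    intro h
    have := congrArg (fun y => (ev y).2) h
    simp only [map_zero, hev1, he, Prod.snd_zero] at this
    exact zero_ne_one this
  have hchar : CharP R p :=
    charP_of_injective_algebraMap (algebraMap (ZMod p) R).injective p
  have hfd : FiniteDimensional (ZMod p) R := inferInstance
  let N : Submodule (ZMod p) R := LinearMap.ker ((LinearMap.snd (ZMod p) W (ZMod p)).comp ev)
  have hN : ∀ x, x ∈ N ↔ (ev x).2 = 0 := fun x => Iff.rfl
  have hNt : ∀ x ∈ N, ∃ h : H, x = t h - 1 := by
    intro x hx
    obtain ⟨h, hh⟩ := hstd x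
    rw [(hN x).mp hx, map_zero, zero_add] at hh
    exact ⟨h, hh⟩
  have htN : ∀ h, t h - 1 ∈ N := by
    intro h
    rw [hN, map_sub, hevt, hev1, he]
    simp
  have hmul : ∀ x ∈ N, ∀ y : R, y * x ∈ N := by
    intro x hx y
    obtain ⟨g, hg⟩ := hstd y
    have h2 : ev (y * x) = ψ y (ev x) := by
      rw [hev, map_mul]
      rfl
    rw [hN, h2, hg]
    have h3 := (hN x).mp hx
    rw [map_add, map_sub, hψt, map_one, AlgHom.commutes]
    change ((ev y).2 • (ev x).2 + ((r g (ev x)).2 - (ev x).2)) = 0
    rw [hr, h3]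
    simp
  have hnil : ∀ x ∈ N, IsNilpotent x := by
    intro x hx
    obtain ⟨h, rfl⟩ := hNt x hx
    obtain ⟨k, hk⟩ := hH h
    refine ⟨p ^ k, ?_⟩
    rw [sub_pow_char_pow, ← htp, hk, ht1, one_pow, sub_self]
  have hcod : ∀ x : R, ∃ c : ZMod p, x - algebraMap (ZMod p) R c ∈ N := by
    intro x
    obtain ⟨h, hh⟩ := hstd x
    refine ⟨(ev x).2, ?_⟩
    have : x - algebraMap (ZMod p) R (ev x).2 = t h - 1 := by
      rw [sub_eq_iff_eq_add, add_comm]
      exact hh
    rw [this]
    exact htN h
  have hE := eggert p N hmul hnil hcod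
  -- cardinalities
  have hcard : Nat.card N = Nat.card W := by
    refine Nat.card_eq_of_bijective (fun x : N => (ev x).1) ⟨?_, ?_⟩
    · intro x y hxy
      apply Subtype.ext
      apply hevinj
      have hx := (hN x).mp x.2
      have hy := (hN y).mp y.2
      exact Prod.ext hxy (hx.trans hy.symm)
    · intro w
      obtain ⟨h, hh⟩ := hs w
      refine ⟨⟨t h - 1, htN h⟩, ?_⟩
      change (ev (t h - 1)).1 = w
      rw [map_sub, hevt, hev1, he, hh]
      simp
  have hpc : ∀ M : Submodule (ZMod p) R, Nat.card M = p ^ finrank (ZMod p) M := by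
    intro M
    rw [Module.natCard_eq_pow_finrank (K := ZMod p), Nat.card_zmod]
  let K : Subgroup H := r.ker
  let L : Subgroup H := K.comap (powMonoidHom p)
  have hK : ∀ h, h ∈ K ↔ t h = 1 := by
    intro h
    constructor
    · intro hh
      apply hψi
      rw [hψt, map_one]
      exact hh
    · intro hh
      change r h = 1
      rw [← hψt, hh, map_one]
  have hL : ∀ h, h ∈ L ↔ h ^ p ∈ K := fun h => Iff.rfl
  refine ⟨K, L, ?_, fun h hh => hh, ?_⟩
  · intro h hh
    rw [hL]
    exact K.pow_mem hh p
  · have h1 : Nat.card ↥(frobKer (ZMod p) R p ⊓ N) ≤ K.relIndex L := by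
      have hex : ∀ x : ↥(frobKer (ZMod p) R p ⊓ N), ∃ h : L, (x : R) = t h - 1 := by
        intro x
        obtain ⟨h, hh⟩ := hNt x x.2.2
        refine ⟨⟨h, ?_⟩, hh⟩
        rw [hL, hK, htp]
        have h2 : (x : R) ^ p = 0 := x.2.1
        rw [hh, sub_pow_char, one_pow, sub_eq_zero] at h2
        exact h2
      choose f hf using hex
      have hinj : Function.Injective (fun x => (QuotientGroup.mk (f x) : L ⧸ K.subgroupOf L)) := by
        intro x y hxy
        have h3 : (f x)⁻¹ * f y ∈ K.subgroupOf L := QuotientGroup.eq.mp hxy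
        rw [Subgroup.mem_subgroupOf] at h3
        have h4 : t ((f x : H)⁻¹ * f y) = 1 := (hK _).mp h3
        apply Subtype.ext
        rw [hf x, hf y]
        have h5 : t (f y : H) = t (f x : H) := by
          have : (f y : H) = f x * ((f x : H)⁻¹ * f y) := by group
          rw [this, htm, h4, mul_one]
        rw [h5]
      exact Nat.card_le_card_of_injective _ hinj
    calc Nat.card W = p ^ finrank (ZMod p) N := by rw [← hcard, hpc]
      _ ≤ p ^ (17 * finrank (ZMod p) ↥(frobKer (ZMod p) R p ⊓ N)) :=
        Nat.pow_le_pow_right (Fact.out : p.Prime).pos hE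
      _ = (Nat.card ↥(frobKer (ZMod p) R p ⊓ N)) ^ 17 := by
        rw [hpc, ← pow_mul, mul_comm]
      _ ≤ _ := Nat.pow_le_pow_left h1 17

end MP_b83a82_al.Ab
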