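import Pool.Agent.Lib.MP_b83a82_al.Ab.Absec

/-! Bounds for the rank of `G = A B` with `A` abelian. -/

namespace MP_b83a82_al.Ab

open scoped commutatorElement

variable {G : Type*} [Group G]

/-- elements of `K ⊔ W` modulo the normal subgroup `W` -/
private theorem derived_mem_sup {K W : Subgroup G} [W.Normal] {x : G} :
    x ∈ K ⊔ W ↔ ∃ h ∈ K, (h : G ⧸ W) = (x : G ⧸ W) := by
  rw [sup_comm, ← QuotientGroup.comap_map_mk' W K, Subgroup.mem_comap, Subgroup.mem_map]
  rfl

theorem ElSec.sup {p : ℕ} {K H : Subgroup G} (h : ElSec p K H) (W : Subgroup G) [W.Normal] :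
    ElSec p (K ⊔ W) (H ⊔ W) := by
  obtain ⟨h1, h2, h3⟩ := h
  refine ⟨sup_le_sup_right h1 W, ?_, ?_⟩
  · intro x hx
    obtain ⟨y, hy, hxy⟩ := derived_mem_sup.1 hx
    rw [derived_mem_sup]
    exact ⟨y ^ p, h2 y hy, by rw [QuotientGroup.mk_pow, QuotientGroup.mk_pow, hxy]⟩
  · intro x hx x' hx'
    obtain ⟨y, hy, hxy⟩ := derived_mem_sup.1 hx
    obtain ⟨y', hy', hxy'⟩ := derived_mem_sup.1 hx'
    rw [derived_mem_sup]
    refine ⟨⁅y, y'⁆, h3 y hy y' hy', ?_⟩
    simp only [commutatorElement_def, QuotientGroup.mk_mul, QuotientGroup.mk_inv]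
    rw [hxy, hxy']

theorem rk_derived [Finite G] {p : ℕ} [Fact p.Prime] (hG : IsPGroup p G) {A B : Subgroup G}
    (hAB : ∀ g : G, ∃ a ∈ A, ∃ b ∈ B, a * b = g) (hA : ∀ x ∈ A, ∀ y ∈ A, x * y = y * x)
    {a b : ℕ} (ha : RkLE p A a) (hb : RkLE p B b) (n : ℕ) (hn : derivedSeries G n = ⊥) :
    RkLE p (⊤ : Subgroup G) (n * (17 * a + b)) := by
  have key : ∀ j i : ℕ, i + j = n → ∀ K H : Subgroup G, H ≤ derivedSeries G i → ElSec p K H →
      K.relIndex H ≤ p ^ (j * (17 * a + b)) := by
    intro j
    induction j with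
    | zero =>
      intro i hi K H hH _
      rw [add_zero] at hi
      rw [hi, hn] at hH
      have hH' : H = ⊥ := le_bot_iff.1 hH
      rw [hH', Subgroup.relIndex_bot_right, zero_mul, pow_zero]
    | succ j ih =>
      intro i hi K H hH hS
      have hWX : derivedSeries G (i + 1) ≤ derivedSeries G i := by
        rw [derivedSeries_succ]
        exact Subgroup.commutator_le_left _ _
      have h1 : (K ⊔ derivedSeries G (i + 1)).relIndex (H ⊔ derivedSeries G (i + 1)) ≤
          p ^ (17 * a + b) :=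
        absec_bound hG hAB hA ha hb (Y := derivedSeries G (i + 1)) (X := derivedSeries G i)
          (derivedSeries_normal G (i + 1)) (derivedSeries_normal G i) hWX
          (fun x hx y hy => by
            rw [derivedSeries_succ]
            exact Subgroup.commutator_mem_commutator hx hy)
          le_sup_right (sup_le hH hWX) (ElSec.sup hS _)
      have h2 : (K ⊓ derivedSeries G (i + 1)).relIndex (H ⊓ derivedSeries G (i + 1)) ≤
          p ^ (j * (17 * a + b)) :=
        ih (i + 1) (by omega) _ _ inf_le_right (hS.inf _)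
      calc K.relIndex H ≤ (K ⊔ derivedSeries G (i + 1)).relIndex (H ⊔ derivedSeries G (i + 1)) *
            (K ⊓ derivedSeries G (i + 1)).relIndex (H ⊓ derivedSeries G (i + 1)) :=
            relIndex_le_sup_mul_inf hS.1 _
        _ ≤ p ^ (17 * a + b) * p ^ (j * (17 * a + b)) := Nat.mul_le_mul h1 h2
        _ = p ^ ((j + 1) * (17 * a + b)) := by
            rw [← pow_add]
            congr 1
            ring
  intro K H _ hS
  exact key n 0 (by omega) K H (by rw [derivedSeries_zero]; exact le_top) hS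

end MP_b83a82_al.Ab
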