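import Pool.Agent.Lib.MP_b83a82_al.Ab.Eggert

/-! The weak Eggert inequality over the prime field. -/

namespace MP_b83a82_al.Ab

open Module

theorem eggert {R : Type*} [CommRing R] (p : ℕ) [Fact p.Prime] [Algebra (ZMod p) R] [CharP R p]
    [FiniteDimensional (ZMod p) R]
    (N : Submodule (ZMod p) R) (hmul : ∀ x ∈ N, ∀ y : R, y * x ∈ N)
    (hnil : ∀ x ∈ N, IsNilpotent x)
    (hcod : ∀ r : R, ∃ c : ZMod p, r - algebraMap (ZMod p) R c ∈ N) :
    finrank (ZMod p) N ≤ 17 * finrank (ZMod p) ↥(frobKer (ZMod p) R p ⊓ N) := by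
  sorry

end MP_b83a82_al.Ab
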