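import Mathlib

/-! Frobenius on subspaces of a commutative algebra over a perfect field. -/

namespace MP_b83a82_al.Ab

open Module

/-- the subspace of all `x` with `x ^ p = 0` -/
def frobKer (K R : Type*) [Field K] [CommRing R] [Algebra K R] (p : ℕ) [Fact p.Prime]
    [CharP R p] : Submodule K R where
  carrier := {x | x ^ p = 0}
  zero_mem' := by
    have hp : p ≠ 0 := (Fact.out : p.Prime).ne_zero
    simp [hp]
  add_mem' := by
    intro x y hx hy
    have hx' : x ^ p = 0 := hx
    have hy' : y ^ p = 0 := hy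
    change (x + y) ^ p = 0
    rw [add_pow_char, hx', hy', add_zero]
  smul_mem' := by
    intro c x hx
    have hx' : x ^ p = 0 := hx
    change (c • x) ^ p = 0
    rw [smul_pow, hx', smul_zero]

theorem mem_frobKer {K R : Type*} [Field K] [CommRing R] [Algebra K R] {p : ℕ} [Fact p.Prime]
    [CharP R p] {x : R} : x ∈ frobKer K R p ↔ x ^ p = 0 := Iff.rfl

private theorem Frob_lin {K V : Type*} [Field K] [AddCommGroup V] [Module K V]
    [FiniteDimensional K V] (E D : Submodule K V) :
    ∃ (m : ℕ) (b : Fin m → V), (∀ i, b i ∈ E) ∧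
      finrank K E = m + finrank K ↥(D ⊓ E) ∧
      ∀ t : Fin m → K, ∑ i, t i • b i ∈ D → ∀ i, t i = 0 := by
  obtain ⟨C, hC⟩ := Submodule.exists_isCompl (D.comap E.subtype)
  have h1 : finrank K (D.comap E.subtype) + finrank K C = finrank K E :=
    Submodule.finrank_add_eq_of_isCompl hC
  have h2 : finrank K (D.comap E.subtype) = finrank K ↥(D ⊓ E) := by
    have h3 : (D.comap E.subtype).map E.subtype = D ⊓ E := by
      rw [Submodule.map_comap_subtype, inf_comm]
    rw [← h3]
    exact (LinearEquiv.finrank_eq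
      (Submodule.equivSubtypeMap E (D.comap E.subtype)))
  have bC : Basis (Fin (finrank K C)) K C := finBasis K C
  refine ⟨finrank K C, fun i => ((bC i : E) : V), fun i => (bC i : E).2, by omega, ?_⟩
  intro t ht
  have h5 : (∑ i, t i • bC i : C).1 ∈ D.comap E.subtype := by
    show ((∑ i, t i • bC i : C).1 : V) ∈ D
    have h6 : ((∑ i, t i • bC i : C).1 : V) = ∑ i, t i • ((bC i : E) : V) := by
      simp only [Submodule.coe_sum, Submodule.coe_smul]
    rw [h6]
    exact ht
  have h7 : (∑ i, t i • bC i : C) = 0 :=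
    Subtype.ext ((Submodule.disjoint_def.1 hC.disjoint) _ h5 (∑ i, t i • bC i : C).2)
  exact (Fintype.linearIndependent_iff.1 bC.linearIndependent) t h7

theorem finrank_le_of_pow_mem {K R : Type*} [Field K] [CommRing R] [Algebra K R] (p : ℕ)
    [Fact p.Prime] [CharP K p] [CharP R p] [PerfectRing K p] [FiniteDimensional K R]
    (E E' : Submodule K R) (h : ∀ x ∈ E, x ^ p ∈ E') :
    finrank K E ≤ finrank K E' + finrank K ↥(frobKer K R p ⊓ E) := by
  have hp : p ≠ 0 := (Fact.out : p.Prime).ne_zero
  obtain ⟨m, b, hbE, hm, hb⟩ := Frob_lin E (frobKer K R p)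
  have hli : LinearIndependent K (fun i : Fin m => (⟨b i ^ p, h _ (hbE i)⟩ : E')) := by
    rw [Fintype.linearIndependent_iff]
    intro g hg
    have hs : ∀ i, ∃ t : K, t ^ p = g i := fun i => by
      obtain ⟨t, ht⟩ := surjective_frobenius K p (g i)
      exact ⟨t, ht⟩
    choose t ht using hs
    have h4 : (∑ i, t i • b i) ^ p = 0 := by
      rw [sum_pow_char]
      have h5 := congrArg (fun z : E' => (z : R)) hg
      simp only [Submodule.coe_sum, Submodule.coe_smul, Submodule.coe_zero] at h5
      rw [← h5]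
      refine Finset.sum_congr rfl fun i _ => ?_
      rw [smul_pow, ht]
    intro i
    rw [← ht i, hb t h4 i, zero_pow hp]
  have h9 := hli.fintype_card_le_finrank
  rw [Fintype.card_fin] at h9
  omega

end MP_b83a82_al.Ab
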