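import Mathlib

/-! First order perturbation of a linear map of maximal rank. -/

namespace MP_b83a82_al.Ab

open Module

theorem map_ker_le_range {K V W : Type*} [Field K] [Infinite K] [AddCommGroup V] [Module K V]
    [FiniteDimensional K V] [AddCommGroup W] [Module K W] [FiniteDimensional K W]
    (T S : V →ₗ[K] W)
    (h : ∀ t : K, finrank K (LinearMap.range (T + t • S)) ≤ finrank K (LinearMap.range T)) :
    (LinearMap.ker T).map S ≤ LinearMap.range T := by
  rintro _ ⟨v, hv, rfl⟩
  by_contra hcon
  have hv0 : T v = 0 := hv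
  set s := finrank K (LinearMap.range T) with hs
  let b : Basis (Fin s) K (LinearMap.range T) := finBasis K (LinearMap.range T)
  have hb : ∀ i, ∃ u, T u = ((b i : LinearMap.range T) : W) := fun i => (b i).2
  choose u hu using hb
  -- the independent family
  let e : Fin (s + 1) → W := Fin.cons (S v) fun i => T (u i)
  have hTu : LinearIndependent K fun i => T (u i) := by
    have h1 := b.linearIndependent.map' (LinearMap.range T).subtype
      (Submodule.ker_subtype _)
    have h2 : (fun i => T (u i)) = (LinearMap.range T).subtype ∘ b := by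
      funext i
      exact hu i
    rw [h2]
    exact h1
  have he : LinearIndependent K e := by
    refine LinearIndependent.finCons hTu ?_
    intro hmem
    apply hcon
    have h1 : Submodule.span K (Set.range fun i => T (u i)) ≤ LinearMap.range T := by
      rw [Submodule.span_le]
      rintro _ ⟨i, rfl⟩
      exact ⟨u i, rfl⟩
    exact h1 hmem
  obtain ⟨φ, hφ⟩ : ∃ φ : W →ₗ[K] (Fin (s + 1) → K), ∀ i, φ (e i) = Pi.single i 1 := by
    have h1 : LinearMap.ker (Fintype.linearCombination K e) = ⊥ := by
      rw [LinearMap.ker_eq_bot]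
      exact linearIndependent_iff_injective_fintypeLinearCombination.1 he
    obtain ⟨φ, hφ⟩ := LinearMap.exists_leftInverse_of_injective _ h1
    refine ⟨φ, fun i => ?_⟩
    have h2 := LinearMap.congr_fun hφ (Pi.single i 1)
    rw [LinearMap.comp_apply, Fintype.linearCombination_apply_single, one_smul] at h2
    exact h2
  let N : Matrix (Fin (s + 1)) (Fin (s + 1)) K :=
    Fin.cons (0 : Fin (s + 1) → K) fun i => φ (S (u i))
  obtain ⟨l, hl0, hl⟩ : ∃ l : K, l ≠ 0 ∧ (-N).charpoly.eval l ≠ 0 := by
    by_contra hno
    push Not at hno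
    have h1 : (-N).charpoly * Polynomial.X = 0 := by
      refine Polynomial.funext fun r => ?_
      rw [Polynomial.eval_mul, Polynomial.eval_X, Polynomial.eval_zero]
      by_cases hr : r = 0
      · rw [hr, mul_zero]
      · rw [hno r hr, zero_mul]
    rcases mul_eq_zero.1 h1 with h2 | h2
    · exact (Matrix.charpoly_monic (-N)).ne_zero h2
    · exact Polynomial.X_ne_zero h2
  rw [Matrix.eval_charpoly] at hl
  let g : Fin (s + 1) → W := Fin.cons (l • S v) fun i => l • T (u i) + S (u i)
  have hA : ∀ i, φ (g i) = (Matrix.scalar (Fin (s + 1)) l - -N) i := by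
    intro i
    have e1 : (Matrix.scalar (Fin (s + 1)) l - -N) i = l • Pi.single i 1 + N i := by
      funext j
      rw [Matrix.sub_apply, Matrix.neg_apply, sub_neg_eq_add, Matrix.scalar_apply,
        Matrix.diagonal_apply, Pi.add_apply, Pi.smul_apply, Pi.single_apply, smul_eq_mul]
      by_cases hij : i = j
      · subst hij
        simp
      · rw [if_neg hij, if_neg (Ne.symm hij), mul_zero]
    rw [e1, ← hφ i]
    refine Fin.cases ?_ (fun i => ?_) i
    · change φ (l • S v) = l • φ (S v) + 0
      rw [map_smul, add_zero]
    · change φ (l • T (u i) + S (u i)) = l • φ (T (u i)) + φ (S (u i))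
      rw [map_add, map_smul]
  have hind : LinearIndependent K g := by
    have h1 : LinearIndependent K (Matrix.scalar (Fin (s + 1)) l - -N).row :=
      Matrix.linearIndependent_rows_iff_isUnit.2
        ((Matrix.isUnit_iff_isUnit_det _).2 (isUnit_iff_ne_zero.2 hl))
    have h2 : (Matrix.scalar (Fin (s + 1)) l - -N).row = φ ∘ g := by
      funext i
      exact (hA i).symm
    rw [h2] at h1
    exact LinearIndependent.of_comp φ h1
  have hmem : ∀ i, g i ∈ LinearMap.range (T + l⁻¹ • S) := by
    intro i
    refine Fin.cases ?_ (fun i => ?_) i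
    · refine ⟨(l * l) • v, ?_⟩
      change (T + l⁻¹ • S) ((l * l) • v) = l • S v
      rw [LinearMap.add_apply, LinearMap.smul_apply, map_smul, map_smul, hv0, smul_zero, zero_add,
        smul_smul, ← mul_assoc, inv_mul_cancel₀ hl0, one_mul]
    · refine ⟨l • u i, ?_⟩
      change (T + l⁻¹ • S) (l • u i) = l • T (u i) + S (u i)
      rw [LinearMap.add_apply, LinearMap.smul_apply, map_smul, map_smul, smul_smul,
        inv_mul_cancel₀ hl0, one_smul]
  have hind' : LinearIndependent K fun i => (⟨g i, hmem i⟩ : LinearMap.range (T + l⁻¹ • S)) :=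
    LinearIndependent.of_comp (LinearMap.range (T + l⁻¹ • S)).subtype hind
  have h1 := hind'.fintype_card_le_finrank
  rw [Fintype.card_fin] at h1
  have h2 := h l⁻¹
  omega

end MP_b83a82_al.Ab
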