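import Pool.Agent.Lib.MP_b83a82_al.Ab.JordanIneq
import Pool.Agent.Lib.MP_b83a82_al.Ab.Generic
import Pool.Agent.Lib.MP_b83a82_al.Ab.Frob

/-! The weak Eggert inequality over an infinite perfect field. -/

namespace MP_b83a82_al.Ab

open Module

section egg

variable {K R : Type*} [Field K] [CommRing R] [Algebra K R]

private theorem egg_mem_range_pow (w x : R) (n : ℕ) :
    x ∈ LinearMap.range ((LinearMap.mulLeft K w) ^ n) ↔ ∃ z, w ^ n * z = x := by
  rw [LinearMap.pow_mulLeft, LinearMap.mem_range]
  rfl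

private theorem egg_mem_ker_pow (w x : R) (n : ℕ) :
    x ∈ LinearMap.ker ((LinearMap.mulLeft K w) ^ n) ↔ w ^ n * x = 0 := by
  rw [LinearMap.pow_mulLeft, LinearMap.mem_ker]
  rfl

private theorem egg_pow_split (p : ℕ) (hp : 2 ≤ p) (x : R) : x ^ p = x ^ 2 * x ^ (p - 2) := by
  rw [← pow_add]
  congr 1
  omega

private theorem egg_stair (p : ℕ) [Fact p.Prime] [CharP R p] (w x : R)
    (hx : x ∈ stair (LinearMap.mulLeft K w) 1) : x ^ p ∈ stair (LinearMap.mulLeft K w) 2 := by
  have hp2 : 2 ≤ p := (Fact.out : p.Prime).two_le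
  refine Submodule.iSup_induction (motive := fun y => y ^ p ∈ stair (LinearMap.mulLeft K w) 2)
    _ hx ?_ ?_ ?_
  · intro m y hy
    obtain ⟨h1, h2⟩ := Submodule.mem_inf.1 hy
    rw [egg_mem_range_pow] at h1
    rw [egg_mem_ker_pow] at h2
    obtain ⟨z, hz⟩ := h1
    refine Submodule.mem_iSup_of_mem m (Submodule.mem_inf.2 ⟨?_, ?_⟩)
    · rw [egg_mem_range_pow]
      refine ⟨w ^ ((m + 1) * (p - 2)) * z ^ p, ?_⟩
      rw [← hz, one_mul, mul_pow, ← pow_mul, ← mul_assoc, ← pow_add]
      congr 2
      obtain ⟨q, rfl⟩ := Nat.exists_eq_add_of_le hp2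
      simp only [Nat.add_sub_cancel_left]
      ring
    · rw [egg_mem_ker_pow, egg_pow_split p hp2 y, pow_two]
      have : w ^ (m + 1) * (y * y * y ^ (p - 2)) = (w ^ (m + 1) * y) * (y * y ^ (p - 2)) := by
        ring
      rw [this, h2, zero_mul]
  · have hp0 : p ≠ 0 := by omega
    simp [hp0]
  · intro y z hy hz
    rw [add_pow_char]
    exact Submodule.add_mem _ hy hz

private theorem egg_s_le (p : ℕ) [Fact p.Prime] [CharP K p] [CharP R p] [PerfectRing K p]
    [FiniteDimensional K R] (N : Submodule K R) (hmul : ∀ x ∈ N, ∀ y : R, y * x ∈ N)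
    (hnil : ∀ x ∈ N, IsNilpotent x) (w : R) (hw : w ∈ N) :
    finrank K (LinearMap.range (LinearMap.mulLeft K w)) ≤
      8 * finrank K ↥(frobKer K R p ⊓ N) := by
  have hp2 : 2 ≤ p := (Fact.out : p.Prime).two_le
  set T := LinearMap.mulLeft K w with hT
  set d := finrank K ↥(frobKer K R p ⊓ N) with hd
  have hTnil : IsNilpotent T := by
    obtain ⟨n, hn⟩ := hnil w hw
    refine ⟨n, ?_⟩
    rw [hT, LinearMap.pow_mulLeft, hn]
    ext x
    simp
  have hrange : LinearMap.range T ≤ N := by
    rintro x ⟨z, rfl⟩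
    rw [hT, LinearMap.mulLeft_apply, mul_comm]
    exact hmul w hw z
  have hst : stair T 1 ≤ N := by
    refine iSup_le fun m => ?_
    intro x hx
    obtain ⟨h1, -⟩ := Submodule.mem_inf.1 hx
    rw [hT, egg_mem_range_pow] at h1
    obtain ⟨z, rfl⟩ := h1
    have : w ^ (1 * (m + 1)) * z = (w ^ m * z) * w := by
      rw [one_mul, pow_succ]
      ring
    rw [this]
    exact hmul w hw _
  have h1 : finrank K (stair T 1) ≤ finrank K (stair T 2) + d := by
    have h := finrank_le_of_pow_mem p (stair T 1) (stair T 2)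
      (fun x hx => egg_stair p w x hx)
    have h' : finrank K ↥(frobKer K R p ⊓ stair T 1) ≤ d :=
      Submodule.finrank_mono (inf_le_inf_left _ hst)
    omega
  have h2 : finrank K (LinearMap.range T) ≤ finrank K (LinearMap.range (T ^ 2)) + d := by
    have h := finrank_le_of_pow_mem p (LinearMap.range T) (LinearMap.range (T ^ 2))
      (by
        rintro x ⟨z, rfl⟩
        rw [hT, LinearMap.mulLeft_apply, egg_mem_range_pow]
        refine ⟨w ^ (p - 2) * z ^ p, ?_⟩
        rw [← mul_assoc, ← egg_pow_split p hp2 w, mul_pow])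
    have h' : finrank K ↥(frobKer K R p ⊓ LinearMap.range T) ≤ d :=
      Submodule.finrank_mono (inf_le_inf_left _ hrange)
    omega
  have h3 := jordan_ineq T hTnil
  omega

end egg

theorem eggert_infinite {K R : Type*} [Field K] [Infinite K] [CommRing R] [Algebra K R] (p : ℕ)
    [Fact p.Prime] [CharP K p] [CharP R p] [PerfectRing K p] [FiniteDimensional K R]
    (N : Submodule K R) (hmul : ∀ x ∈ N, ∀ y : R, y * x ∈ N) (hnil : ∀ x ∈ N, IsNilpotent x)
    (hcod : ∀ r : R, ∃ c : K, r - algebraMap K R c ∈ N) :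
    finrank K N ≤ 17 * finrank K ↥(frobKer K R p ⊓ N) := by
  have hp2 : 2 ≤ p := (Fact.out : p.Prime).two_le
  set d := finrank K ↥(frobKer K R p ⊓ N) with hd
  set s : R → ℕ := fun w => finrank K (LinearMap.range (LinearMap.mulLeft K w)) with hs
  obtain ⟨w, hwN, hwmax⟩ : ∃ w ∈ N, ∀ y ∈ N, s y ≤ s w := by
    set A : Set ℕ := {n | ∃ w ∈ N, s w = n} with hA
    have hne : A.Nonempty := ⟨s 0, 0, N.zero_mem, rfl⟩
    have hbd : BddAbove A := by
      refine ⟨finrank K R, ?_⟩
      rintro n ⟨y, -, rfl⟩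
      exact Submodule.finrank_le _
    obtain ⟨w, hw, hw2⟩ := Nat.sSup_mem hne hbd
    refine ⟨w, hw, fun y hy => ?_⟩
    rw [hw2]
    exact le_csSup hbd ⟨y, hy, rfl⟩
  by_cases hw0 : w = 0
  · have hN : N = ⊥ := by
      rw [Submodule.eq_bot_iff]
      intro y hy
      have h1 : s y ≤ 0 := by
        refine (hwmax y hy).trans (le_of_eq ?_)
        rw [hw0]
        have h0 : LinearMap.mulLeft K (0 : R) = 0 := by
          ext x
          simp
        have h0' : LinearMap.range (LinearMap.mulLeft K (0 : R)) = ⊥ := by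
          rw [h0, LinearMap.range_zero]
        change finrank K (LinearMap.range (LinearMap.mulLeft K (0 : R))) = 0
        rw [h0', finrank_bot]
      have h2 : finrank K (LinearMap.range (LinearMap.mulLeft K y)) = 0 := Nat.le_zero.1 h1
      have h3 : LinearMap.range (LinearMap.mulLeft K y) = ⊥ := Submodule.finrank_eq_zero.1 h2
      have h4 : y * 1 ∈ LinearMap.range (LinearMap.mulLeft K y) := ⟨1, rfl⟩
      rw [h3, Submodule.mem_bot, mul_one] at h4
      exact h4
    rw [hN, finrank_bot]
    exact Nat.zero_le _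
  · have hker : LinearMap.ker (LinearMap.mulLeft K w) ≤ N := by
      intro u hu
      rw [LinearMap.mem_ker, LinearMap.mulLeft_apply] at hu
      obtain ⟨c, hc⟩ := hcod u
      by_cases hc0 : c = 0
      · rw [hc0, map_zero, sub_zero] at hc
        exact hc
      · exfalso
        apply hw0
        have h1 : IsUnit (algebraMap K R c) := (IsUnit.mk0 c hc0).map (algebraMap K R)
        have h2 : IsUnit (algebraMap K R c + (u - algebraMap K R c)) :=
          (hnil _ hc).isUnit_add_left_of_commute h1 (Commute.all _ _)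
        rw [add_sub_cancel] at h2
        exact (h2.mul_left_eq_zero).1 hu
    have hkey : ∀ u ∈ LinearMap.ker (LinearMap.mulLeft K w),
        u ^ p ∈ LinearMap.range (LinearMap.mulLeft K w) := by
      intro u hu
      have huN := hker hu
      have h1 := map_ker_le_range (LinearMap.mulLeft K w) (LinearMap.mulLeft K u) (by
        intro t
        have h2 : LinearMap.mulLeft K w + t • LinearMap.mulLeft K u =
            LinearMap.mulLeft K (w + t • u) := by
          ext x
          simp [add_mul]
        rw [h2]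
        exact hwmax _ (N.add_mem hwN (N.smul_mem t huN)))
      have h3 : u * u ∈ LinearMap.range (LinearMap.mulLeft K w) :=
        h1 (Submodule.mem_map.2 ⟨u, hu, rfl⟩)
      obtain ⟨z, hz⟩ := h3
      rw [LinearMap.mulLeft_apply] at hz
      refine ⟨z * u ^ (p - 2), ?_⟩
      rw [LinearMap.mulLeft_apply, ← mul_assoc, hz, egg_pow_split p hp2 u, pow_two]
    have h1 := finrank_le_of_pow_mem p (LinearMap.ker (LinearMap.mulLeft K w))
      (LinearMap.range (LinearMap.mulLeft K w)) hkey
    have h2 : finrank K ↥(frobKer K R p ⊓ LinearMap.ker (LinearMap.mulLeft K w)) ≤ d :=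
      Submodule.finrank_mono (inf_le_inf_left _ hker)
    have h3 := egg_s_le p N hmul hnil w hwN
    have h4 := LinearMap.finrank_range_add_finrank_ker (LinearMap.mulLeft K w)
    have h5 : finrank K N ≤ finrank K R := Submodule.finrank_le _
    omega

end MP_b83a82_al.Ab
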