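import Pool.Agent.Lib.MP_b83a82_al.Ab.Seq

/-! Staircase subspaces of a nilpotent operator. -/

namespace MP_b83a82_al.Ab

open Module

variable {K V : Type*} [Field K] [AddCommGroup V] [Module K V] [FiniteDimensional K V]

/-- The staircase subspace: the sum over `m ≥ 1` of `range T^(c m) ∩ ker T^m`. -/
def stair (T : V →ₗ[K] V) (c : ℕ) : Submodule K V :=
  ⨆ m : ℕ, LinearMap.range (T ^ (c * (m + 1))) ⊓ LinearMap.ker (T ^ (m + 1))

theorem finrank_range_inf_ker (T : V →ₗ[K] V) (a b : ℕ) :
    finrank K ↥(LinearMap.range (T ^ a) ⊓ LinearMap.ker (T ^ b)) +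
      finrank K (LinearMap.range (T ^ (a + b))) = finrank K (LinearMap.range (T ^ a)) := by
  have h := LinearMap.finrank_range_add_finrank_ker
    ((T ^ b).domRestrict (LinearMap.range (T ^ a)))
  have h1 : LinearMap.range ((T ^ b).domRestrict (LinearMap.range (T ^ a))) =
      LinearMap.range (T ^ (a + b)) := by
    rw [LinearMap.range_domRestrict, ← LinearMap.range_comp, add_comm a b, pow_add]
    rfl
  have h2 : LinearMap.ker ((T ^ b).domRestrict (LinearMap.range (T ^ a))) =
      (LinearMap.ker (T ^ b)).comap (LinearMap.range (T ^ a)).subtype := by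
    rw [LinearMap.domRestrict, LinearMap.ker_comp]
  have h3 : finrank K ((LinearMap.ker (T ^ b)).comap (LinearMap.range (T ^ a)).subtype) =
      finrank K ↥(LinearMap.range (T ^ a) ⊓ LinearMap.ker (T ^ b)) := by
    rw [← Submodule.map_comap_subtype, Submodule.finrank_map_subtype_eq]
  rw [h1, h2, h3] at h
  omega

omit [FiniteDimensional K V] in
private theorem ker_pow_mono' (T : V →ₗ[K] V) {a b : ℕ} (h : a ≤ b) :
    LinearMap.ker (T ^ a) ≤ LinearMap.ker (T ^ b) := by
  intro x hx
  rw [LinearMap.mem_ker] at hx ⊢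
  obtain ⟨c, rfl⟩ := Nat.exists_eq_add_of_le h
  rw [add_comm, pow_add, Module.End.mul_apply, hx, map_zero]

omit [FiniteDimensional K V] in
private theorem range_pow_anti' (T : V →ₗ[K] V) {a b : ℕ} (h : a ≤ b) :
    LinearMap.range (T ^ b) ≤ LinearMap.range (T ^ a) := by
  rintro x ⟨y, rfl⟩
  obtain ⟨c, rfl⟩ := Nat.exists_eq_add_of_le h
  exact ⟨(T ^ c) y, by rw [pow_add, Module.End.mul_apply]⟩

/-- dimension of a staircase subspace -/
theorem finrank_stair (T : V →ₗ[K] V) (hT : IsNilpotent T) (c : ℕ) (hc : 1 ≤ c) :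
    ∃ M0 : ℕ, ∀ M ≥ M0, finrank K (stair T c) +
      ∑ m ∈ Finset.range M, finrank K (LinearMap.range (T ^ ((c + 1) * (m + 1)))) =
      ∑ m ∈ Finset.range M, finrank K (LinearMap.range (T ^ ((c + 1) * (m + 1) - 1))) := by
  obtain ⟨M0, hM0⟩ := hT
  set U : ℕ → Submodule K V := fun m =>
    LinearMap.range (T ^ (c * (m + 1))) ⊓ LinearMap.ker (T ^ (m + 1)) with hU
  set E : ℕ → Submodule K V := fun M => (Finset.range M).sup U with hE
  have hEker : ∀ M, E M ≤ LinearMap.ker (T ^ M) := by
    intro M
    apply Finset.sup_le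
    intro m hm
    exact inf_le_right.trans (ker_pow_mono' T (Finset.mem_range.1 hm))
  have hEsucc : ∀ M, E (M + 1) = U M ⊔ E M := by
    intro M
    simp only [hE, Finset.range_add_one, Finset.sup_insert]
  have hinf : ∀ M, U M ⊓ E M = LinearMap.range (T ^ (c * (M + 1))) ⊓ LinearMap.ker (T ^ M) := by
    intro M
    apply le_antisymm
    · exact le_inf (inf_le_left.trans inf_le_left) (inf_le_right.trans (hEker M))
    · apply le_inf
      · exact inf_le_inf_left _ (ker_pow_mono' T (Nat.le_succ M))
      · rcases M with _ | M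
        · rw [pow_zero]
          intro x hx
          have : x = 0 := by simpa using hx.2
          rw [this]
          exact Submodule.zero_mem _
        · have h1 : U M ≤ E (M + 1) := by
            rw [hEsucc]
            exact le_sup_left
          refine le_trans ?_ h1
          exact inf_le_inf_right _ (range_pow_anti' T (Nat.mul_le_mul_left c (Nat.le_succ _)))
  have hsum : ∀ M, finrank K (E M) +
      ∑ m ∈ Finset.range M, finrank K (LinearMap.range (T ^ ((c + 1) * (m + 1)))) =
      ∑ m ∈ Finset.range M, finrank K (LinearMap.range (T ^ ((c + 1) * (m + 1) - 1))) := by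
    intro M
    induction M with
    | zero => simp [hE]
    | succ M ih =>
      rw [Finset.sum_range_succ, Finset.sum_range_succ, ← ih, hEsucc]
      have h1 := Submodule.finrank_sup_add_finrank_inf_eq (U M) (E M)
      rw [hinf M] at h1
      have h2 := finrank_range_inf_ker T (c * (M + 1)) (M + 1)
      have h3 := finrank_range_inf_ker T (c * (M + 1)) M
      have e1 : c * (M + 1) + (M + 1) = (c + 1) * (M + 1) := by ring
      have e2 : c * (M + 1) + M = (c + 1) * (M + 1) - 1 := by
        have : (c + 1) * (M + 1) = c * (M + 1) + M + 1 := by ring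
        omega
      rw [e1] at h2
      rw [e2] at h3
      have h4 : finrank K (U M) = finrank K
        ↥(LinearMap.range (T ^ (c * (M + 1))) ⊓ LinearMap.ker (T ^ (M + 1))) := rfl
      omega
  refine ⟨M0, fun M hM => ?_⟩
  have hst : stair T c = E M := by
    apply le_antisymm
    · apply iSup_le
      intro m
      by_cases hm : m < M
      · exact Finset.le_sup (f := U) (Finset.mem_range.2 hm)
      · have hz : T ^ (c * (m + 1)) = 0 := by
          have h5 : M0 ≤ c * (m + 1) := by nlinarith
          obtain ⟨d, hd⟩ := Nat.exists_eq_add_of_le h5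
          rw [hd, pow_add, hM0, zero_mul]
        rw [hz, LinearMap.range_zero, bot_inf_eq]
        exact bot_le
    · apply Finset.sup_le
      intro m _
      exact le_iSup (fun m : ℕ =>
        LinearMap.range (T ^ (c * (m + 1))) ⊓ LinearMap.ker (T ^ (m + 1))) m
  rw [hst]
  exact hsum M

end MP_b83a82_al.Ab
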