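import Pool.Agent.Lib.MP_b83a82_al.Ab.Jordan

/-! The rank of a nilpotent operator is bounded by its staircase subspaces. -/

namespace MP_b83a82_al.Ab

open Module

variable {K V : Type*} [Field K] [AddCommGroup V] [Module K V] [FiniteDimensional K V]

theorem jordan_ineq (T : V →ₗ[K] V) (hT : IsNilpotent T) :
    6 * finrank K (stair T 2) + 2 * finrank K (LinearMap.range (T ^ 2)) ≤
      6 * finrank K (stair T 1) + finrank K (LinearMap.range T) := by
  -- the ranks
  set r : ℕ → ℤ := fun j => (finrank K (LinearMap.range (T ^ j)) : ℤ) with hr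
  have hdiff : ∀ a, r a - r (a + 1) =
      (finrank K ↥(LinearMap.range (T ^ a) ⊓ LinearMap.ker (T ^ 1)) : ℤ) := by
    intro a
    have h := finrank_range_inf_ker T a 1
    have h' : ((finrank K ↥(LinearMap.range (T ^ a) ⊓ LinearMap.ker (T ^ 1)) +
      finrank K (LinearMap.range (T ^ (a + 1))) : ℕ) : ℤ) =
        ((finrank K (LinearMap.range (T ^ a)) : ℕ) : ℤ) := by rw [h]
    push_cast at h'
    simp only [hr]
    linarith
  have hrange : ∀ a, LinearMap.range (T ^ (a + 1)) ≤ LinearMap.range (T ^ a) := by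
    rintro a _ ⟨x, rfl⟩
    refine ⟨T x, ?_⟩
    rw [pow_succ]
    rfl
  have hanti' : ∀ a, r (a + 1) - r (a + 1 + 1) ≤ r a - r (a + 1) := by
    intro a
    rw [hdiff, hdiff]
    exact_mod_cast Submodule.finrank_mono (inf_le_inf_right _ (hrange a))
  have hnn' : ∀ a, 0 ≤ r a - r (a + 1) := by
    intro a
    rw [hdiff]
    exact Nat.cast_nonneg _
  -- the sequence
  set B : ℕ → ℤ := fun j => if j = 0 then r 0 - r 1 else r (j - 1) - r j with hB
  have hBs : ∀ j, B (j + 1) = r j - r (j + 1) := by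
    intro j
    simp only [hB, Nat.add_eq_zero_iff, one_ne_zero, and_false, if_false, Nat.add_sub_cancel]
  have hB0 : B 0 = r 0 - r 1 := by simp only [hB, if_true]
  have hanti : ∀ j, B (j + 1) ≤ B j := by
    intro j
    cases j with
    | zero => rw [hBs, hB0]
    | succ j => rw [hBs, hBs]; exact hanti' j
  have hnn : ∀ j, 0 ≤ B j := by
    intro j
    cases j with
    | zero => rw [hB0]; exact hnn' 0
    | succ j => rw [hBs]; exact hnn' j
  obtain ⟨N, hN⟩ := hT
  obtain ⟨M1, h1⟩ := finrank_stair T ⟨N, hN⟩ 1 le_rfl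
  obtain ⟨M2, h2⟩ := finrank_stair T ⟨N, hN⟩ 2 (by norm_num)
  set M := M1 + M2 + N with hM
  have hs := seq_ineq B hanti hnn M
  have e1 := h1 (3 * M) (by omega)
  have e2 := h2 (2 * M) (by omega)
  have f1 : ∑ m ∈ Finset.range (3 * M), B (2 * m + 2) = (finrank K (stair T 1) : ℤ) := by
    have e1' : ((finrank K (stair T 1) +
      ∑ m ∈ Finset.range (3 * M), finrank K (LinearMap.range (T ^ ((1 + 1) * (m + 1)))) : ℕ) : ℤ) =
      ((∑ m ∈ Finset.range (3 * M),
        finrank K (LinearMap.range (T ^ ((1 + 1) * (m + 1) - 1))) : ℕ) : ℤ) := by rw [e1]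
    push_cast at e1'
    have g : ∀ m, B (2 * m + 2) = (finrank K (LinearMap.range (T ^ ((1 + 1) * (m + 1) - 1))) : ℤ) -
        (finrank K (LinearMap.range (T ^ ((1 + 1) * (m + 1)))) : ℤ) := by
      intro m
      rw [show 2 * m + 2 = (2 * m + 1) + 1 by ring, hBs, hr]
      simp only
      rw [show (1 + 1) * (m + 1) - 1 = 2 * m + 1 by omega,
        show (1 + 1) * (m + 1) = 2 * m + 1 + 1 by ring]
    simp only [g, Finset.sum_sub_distrib]
    linarith
  have f2 : ∑ m ∈ Finset.range (2 * M), B (3 * m + 3) = (finrank K (stair T 2) : ℤ) := by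
    have e2' : ((finrank K (stair T 2) +
      ∑ m ∈ Finset.range (2 * M), finrank K (LinearMap.range (T ^ ((2 + 1) * (m + 1)))) : ℕ) : ℤ) =
      ((∑ m ∈ Finset.range (2 * M),
        finrank K (LinearMap.range (T ^ ((2 + 1) * (m + 1) - 1))) : ℕ) : ℤ) := by rw [e2]
    push_cast at e2'
    have g : ∀ m, B (3 * m + 3) = (finrank K (LinearMap.range (T ^ ((2 + 1) * (m + 1) - 1))) : ℤ) -
        (finrank K (LinearMap.range (T ^ ((2 + 1) * (m + 1)))) : ℤ) := by
      intro m
      rw [show 3 * m + 3 = (3 * m + 2) + 1 by ring, hBs, hr]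
      simp only
      rw [show (2 + 1) * (m + 1) - 1 = 3 * m + 2 by omega,
        show (2 + 1) * (m + 1) = 3 * m + 2 + 1 by ring]
    simp only [g, Finset.sum_sub_distrib]
    linarith
  have f3 : ∑ j ∈ Finset.range (6 * M), B (j + 2) = r 1 := by
    have g : ∀ j, B (j + 2) = r (j + 1) - r (j + 1 + 1) := fun j => by
      rw [show j + 2 = (j + 1) + 1 by ring, hBs]
    have h3 : ∀ n, ∑ j ∈ Finset.range n, B (j + 2) = r 1 - r (n + 1) := by
      intro n
      induction n with
      | zero => simp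
      | succ n ih => rw [Finset.sum_range_succ, ih, g]; ring
    rw [h3]
    have h4 : T ^ (6 * M + 1) = 0 := by
      rw [show 6 * M + 1 = N + (6 * M + 1 - N) by omega, pow_add, hN, zero_mul]
    have h5 : r (6 * M + 1) = 0 := by
      change (finrank K (LinearMap.range (T ^ (6 * M + 1))) : ℤ) = 0
      rw [h4, LinearMap.range_zero, finrank_bot]
      rfl
    rw [h5, sub_zero]
  have f4 : B 2 = r 1 - r 2 := hBs 1
  rw [f1, f2, f3, f4] at hs
  have g1 : r 1 = (finrank K (LinearMap.range T) : ℤ) := by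
    change (finrank K (LinearMap.range (T ^ 1)) : ℤ) = _
    rw [pow_one]
  have g2 : r 2 = (finrank K (LinearMap.range (T ^ 2)) : ℤ) := rfl
  rw [g1, g2] at hs
  have : ((6 * finrank K (stair T 2) + 2 * finrank K (LinearMap.range (T ^ 2)) : ℕ) : ℤ) ≤
      ((6 * finrank K (stair T 1) + finrank K (LinearMap.range T) : ℕ) : ℤ) := by
    push_cast
    linarith
  exact_mod_cast this

end MP_b83a82_al.Ab
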