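import Pool.Agent.Lib.MP_b83a82_al.Ab.Affine
import Pool.Agent.Lib.MP_b83a82_al.Main

/-! Elementary abelian normal subgroups and sections of `G = A B` with `A` abelian. -/

namespace MP_b83a82_al.Ab

open scoped commutatorElement

namespace NormalBound

/-- the affine bound, for a cocycle with values in a commutative group modulo a subgroup
(with a given module structure of the quotient) -/
theorem core0 {p : ℕ} [Fact p.Prime] {U H : Type*} [CommGroup U] [Finite U] [CommGroup H]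
    [Finite H] (hH : IsPGroup p H) (Z : Subgroup U) [Module (ZMod p) (Additive (U ⧸ Z))]
    (φ : H → U →* U) (hφ1 : ∀ u, φ 1 u = u) (hφm : ∀ g h u, φ (g * h) u = φ g (φ h u))
    (hφ : ∀ h, ∀ z ∈ Z, φ h z ∈ Z) (δ : H → U)
    (hδ : ∀ g h, (δ g * φ g (δ h))⁻¹ * δ (g * h) ∈ Z) (hs : ∀ u, ∃ g, u⁻¹ * δ g ∈ Z) :
    ∃ K L : Subgroup H, K ≤ L ∧ (∀ h ∈ L, h ^ p ∈ K) ∧ Z.index ≤ (K.relIndex L) ^ 17 := by
  let ρ : H →* (Additive (U ⧸ Z) →ₗ[ZMod p] Additive (U ⧸ Z)) :=
    { toFun := fun h => (MonoidHom.toAdditive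
        (QuotientGroup.map Z Z (φ h) (fun z hz => hφ h z hz))).toZModLinearMap p
      map_one' := by
        apply LinearMap.ext
        intro x
        obtain ⟨u, hu⟩ := QuotientGroup.mk_surjective (Additive.toMul x)
        have hx : x = Additive.ofMul (QuotientGroup.mk u : U ⧸ Z) := by rw [hu]; rfl
        rw [hx]
        change Additive.ofMul (QuotientGroup.mk (φ 1 u) : U ⧸ Z) = _
        rw [hφ1]
        rfl
      map_mul' := by
        intro g h
        apply LinearMap.ext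
        intro x
        obtain ⟨u, hu⟩ := QuotientGroup.mk_surjective (Additive.toMul x)
        have hx : x = Additive.ofMul (QuotientGroup.mk u : U ⧸ Z) := by rw [hu]; rfl
        rw [hx]
        change Additive.ofMul (QuotientGroup.mk (φ (g * h) u) : U ⧸ Z) = _
        rw [hφm]
        rfl }
  have hρ : ∀ h u, ρ h (Additive.ofMul (QuotientGroup.mk u : U ⧸ Z)) =
      Additive.ofMul (QuotientGroup.mk (φ h u) : U ⧸ Z) := fun h u => rfl
  obtain ⟨K, L, h1, h2, h3⟩ := affine_bound p hH ρ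
    (fun h => Additive.ofMul (QuotientGroup.mk (δ h) : U ⧸ Z))
    (by
      intro g h
      rw [hρ, ← ofMul_mul, ← QuotientGroup.mk_mul]
      congr 1
      symm
      rw [QuotientGroup.eq]
      exact hδ g h)
    (by
      intro x
      obtain ⟨u, hu⟩ := QuotientGroup.mk_surjective (Additive.toMul x)
      obtain ⟨g, hg⟩ := hs u
      refine ⟨g, ?_⟩
      have hx : x = Additive.ofMul (QuotientGroup.mk u : U ⧸ Z) := by rw [hu]; rfl
      rw [hx]
      change Additive.ofMul (QuotientGroup.mk (δ g) : U ⧸ Z) = _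
      congr 1
      symm
      rw [QuotientGroup.eq]
      exact hg)
  refine ⟨K, L, h1, h2, ?_⟩
  have h4 : Nat.card (Additive (U ⧸ Z)) = Z.index := by
    rw [Subgroup.index_eq_card]
    rfl
  rw [← h4]
  exact h3

/-- the affine bound, for a cocycle with values in a commutative group modulo a subgroup -/
theorem core {p : ℕ} [Fact p.Prime] {U H : Type*} [CommGroup U] [Finite U] [CommGroup H]
    [Finite H] (hH : IsPGroup p H) (hU : ∀ u : U, u ^ p = 1) (Z : Subgroup U)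
    (φ : H → U →* U) (hφ1 : ∀ u, φ 1 u = u) (hφm : ∀ g h u, φ (g * h) u = φ g (φ h u))
    (hφ : ∀ h, ∀ z ∈ Z, φ h z ∈ Z) (δ : H → U)
    (hδ : ∀ g h, (δ g * φ g (δ h))⁻¹ * δ (g * h) ∈ Z) (hs : ∀ u, ∃ g, u⁻¹ * δ g ∈ Z) :
    ∃ K L : Subgroup H, K ≤ L ∧ (∀ h ∈ L, h ^ p ∈ K) ∧ Z.index ≤ (K.relIndex L) ^ 17 := by
  have _i : Module (ZMod p) (Additive (U ⧸ Z)) := AddCommGroup.zmodModule (n := p) (by
    intro x
    obtain ⟨u, hu⟩ := QuotientGroup.mk_surjective (Additive.toMul x)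
    apply Additive.toMul.injective
    rw [toMul_nsmul, toMul_zero, ← hu, ← QuotientGroup.mk_pow, hU]
    rfl)
  exact core0 hH Z φ hφ1 hφm hφ δ hδ hs

end NormalBound

variable {G : Type*} [Group G]

open NormalBound in
/-- elementary abelian normal subgroups -/
theorem normal_bound [Finite G] {p : ℕ} [Fact p.Prime] (hG : IsPGroup p G) {A B : Subgroup G}
    (hAB : ∀ g : G, ∃ a ∈ A, ∃ b ∈ B, a * b = g) (hA : ∀ x ∈ A, ∀ y ∈ A, x * y = y * x)
    {a b : ℕ} (ha : RkLE p A a) (hb : RkLE p B b) {V : Subgroup G} (hV : V.Normal)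
    (hVc : ∀ x ∈ V, ∀ y ∈ V, x * y = y * x) (hVp : ∀ x ∈ V, x ^ p = 1) :
    Nat.card V ≤ p ^ (17 * a + b) := by
  classical
  set A1 : Subgroup G := A ⊓ (V ⊔ B) with hA1
  let _ : CommGroup V := { (inferInstance : Group V) with
    mul_comm := fun x y => Subtype.ext (hVc x x.2 y y.2) }
  let _ : CommGroup A1 := { (inferInstance : Group A1) with
    mul_comm := fun x y => Subtype.ext (hA x x.2.1 y y.2.1) }
  have hex : ∀ x : A1, ∃ v : V, ∃ b ∈ B, (v : G) * b = (x : G) := by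
    intro x
    obtain ⟨v, hv, b, hb, h⟩ := Subgroup.mem_sup_of_normal_left.1 x.2.2
    exact ⟨⟨v, hv⟩, b, hb, h⟩
  choose δ β hβ hδβ using hex
  set Z : Subgroup V := (V ⊓ B).subgroupOf V with hZ
  have hmemZ : ∀ z : V, z ∈ Z ↔ (z : G) ∈ B := by
    intro z
    rw [hZ, Subgroup.mem_subgroupOf]
    exact ⟨fun h => h.2, fun h => ⟨z.2, h⟩⟩
  have hVc' : ∀ x y : V, (x : G) * y = y * x := fun x y => hVc x x.2 y y.2
  obtain ⟨K, L, hKL, hp, hle⟩ := core (p := p) (U := V) (H := A1) (hG.to_subgroup A1)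
    (fun u => Subtype.ext (by simpa using hVp u u.2)) Z
    (fun x => (MulAut.conjNormal (H := V) (x : G)).toMonoidHom)
    (by
      intro u
      apply Subtype.ext
      change ((1 : A1) : G) * (u : G) * ((1 : A1) : G)⁻¹ = u
      simp)
    (by
      intro g h u
      apply Subtype.ext
      change ((g * h : A1) : G) * (u : G) * ((g * h : A1) : G)⁻¹ =
        (g : G) * ((h : G) * (u : G) * (h : G)⁻¹) * (g : G)⁻¹
      have : ((g * h : A1) : G) = (g : G) * (h : G) := rfl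
      rw [this]
      group)
    (by
      intro h z hz
      rw [hmemZ] at hz ⊢
      change (h : G) * (z : G) * (h : G)⁻¹ ∈ B
      have e1 : (h : G) * (z : G) * (h : G)⁻¹ =
          (δ h : G) * (β h * (z : G) * (β h)⁻¹) * (δ h : G)⁻¹ := by
        rw [← hδβ h]
        group
      have e2 : β h * (z : G) * (β h)⁻¹ ∈ V := hV.conj_mem _ z.2 _
      have e3 : β h * (z : G) * (β h)⁻¹ ∈ B :=
        B.mul_mem (B.mul_mem (hβ h) hz) (B.inv_mem (hβ h))
      rw [e1, hVc _ (δ h).2 _ e2, mul_inv_cancel_right]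
      exact e3)
    δ
    (by
      intro g h
      rw [hmemZ]
      change ((δ g : G) * ((g : G) * (δ h : G) * (g : G)⁻¹))⁻¹ * (δ (g * h) : G) ∈ B
      have e0 : ((g * h : A1) : G) = (g : G) * (h : G) := rfl
      have e1 := hδβ (g * h)
      rw [e0] at e1
      have e2 : (g : G) * (δ h : G) * (g : G)⁻¹ ∈ V := hV.conj_mem _ (δ h).2 _
      have e3 : (δ g : G) * ((g : G) * (δ h : G) * (g : G)⁻¹) * (β g * β h) = (g : G) * h := by
        rw [hVc _ (δ g).2 _ e2]
        have e4 : (g : G) * (δ h : G) * (g : G)⁻¹ * (δ g : G) * (β g * β h) =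
            (g : G) * (δ h : G) * (g : G)⁻¹ * ((δ g : G) * β g) * β h := by
          group
        rw [e4, hδβ g, inv_mul_cancel_right, mul_assoc, hδβ h]
      have e5 : ((δ g : G) * ((g : G) * (δ h : G) * (g : G)⁻¹))⁻¹ * (δ (g * h) : G) =
          (β g * β h) * (β (g * h))⁻¹ := by
        rw [inv_mul_eq_iff_eq_mul, ← mul_assoc, e3, eq_mul_inv_iff_mul_eq]
        exact e1
      rw [e5]
      exact B.mul_mem (B.mul_mem (hβ g) (hβ h)) (B.inv_mem (hβ _)))
    (by
      intro v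
      obtain ⟨a0, ha0, b0, hb0, hab⟩ := hAB (v : G)
      have e1 : a0 = (v : G) * b0⁻¹ := by rw [← hab, mul_inv_cancel_right]
      have e2 : a0 ∈ V ⊔ B := by
        rw [e1]
        exact Subgroup.mul_mem_sup v.2 (B.inv_mem hb0)
      refine ⟨⟨a0, ha0, e2⟩, ?_⟩
      rw [hmemZ]
      change (v : G)⁻¹ * (δ ⟨a0, ha0, e2⟩ : G) ∈ B
      have e3 : (δ ⟨a0, ha0, e2⟩ : G) * β ⟨a0, ha0, e2⟩ = a0 := hδβ ⟨a0, ha0, e2⟩
      have e4 : (v : G)⁻¹ * (δ ⟨a0, ha0, e2⟩ : G) = b0⁻¹ * (β ⟨a0, ha0, e2⟩)⁻¹ := by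
        rw [inv_mul_eq_iff_eq_mul, ← mul_assoc, ← e1, eq_mul_inv_iff_mul_eq]
        exact e3
      rw [e4]
      exact B.mul_mem (B.inv_mem hb0) (B.inv_mem (hβ _)))
  -- the section of `A`
  have h1 : K.relIndex L ≤ p ^ a := by
    have e1 : (K.map A1.subtype).relIndex (L.map A1.subtype) = K.relIndex L :=
      Subgroup.relIndex_map_map_of_injective K L A1.subtype_injective
    rw [← e1]
    refine ha _ _ ?_ ⟨Subgroup.map_mono hKL, ?_, ?_⟩
    · rintro _ ⟨x, -, rfl⟩
      exact x.2.1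
    · rintro _ ⟨x, hx, rfl⟩
      exact ⟨x ^ p, hp x hx, rfl⟩
    · rintro _ ⟨x, hx, rfl⟩ _ ⟨y, hy, rfl⟩
      have : ⁅(A1.subtype x : G), A1.subtype y⁆ = 1 := by
        rw [commutatorElement_eq_one_iff_mul_comm]
        exact hA _ x.2.1 _ y.2.1
      rw [this]
      exact Subgroup.one_mem _
  have h2 : Nat.card Z ≤ p ^ b := by
    have e1 : Nat.card Z = Nat.card (V ⊓ B : Subgroup G) :=
      Nat.card_congr (Subgroup.subgroupOfEquivOfLe (inf_le_left : V ⊓ B ≤ V)).toEquiv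
    rw [e1, ← Subgroup.relIndex_bot_left]
    refine hb ⊥ (V ⊓ B) inf_le_right ⟨bot_le, ?_, ?_⟩
    · intro h hh
      rw [hVp h hh.1]
      exact Subgroup.one_mem _
    · intro h hh h' hh'
      have : ⁅h, h'⁆ = 1 := by
        rw [commutatorElement_eq_one_iff_mul_comm]
        exact hVc _ hh.1 _ hh'.1
      rw [this]
      exact Subgroup.one_mem _
  calc Nat.card V = Nat.card Z * Z.index := (Subgroup.card_mul_index Z).symm
    _ ≤ p ^ b * (p ^ a) ^ 17 :=
        Nat.mul_le_mul h2 (hle.trans (Nat.pow_le_pow_left h1 17))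
    _ = p ^ (17 * a + b) := by
        rw [← pow_mul, ← pow_add]
        congr 1
        ring

end MP_b83a82_al.Ab
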