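import Mathlib

/-! A summation inequality for decreasing sequences. -/

namespace MP_b83a82_al.Ab

open Finset

theorem seq_aux (B : ℕ → ℤ) (hanti : ∀ j, B (j + 1) ≤ B j) (hnn : ∀ j, 0 ≤ B j) (M : ℕ) :
    ∑ j ∈ range (6 * M), B (j + 2) + 2 * B (6 * M + 2) ≤
      6 * ∑ m ∈ range (3 * M), B (2 * m + 2) - 6 * ∑ m ∈ range (2 * M), B (3 * m + 3)
        + 2 * B 2 := by
  induction M with
  | zero => simp
  | succ M ih =>
    have e1 : 6 * (M + 1) = 6 * M + 1 + 1 + 1 + 1 + 1 + 1 := by ring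
    have e2 : 3 * (M + 1) = 3 * M + 1 + 1 + 1 := by ring
    have e3 : 2 * (M + 1) = 2 * M + 1 + 1 := by ring
    rw [e1, e2, e3]
    simp only [sum_range_succ]
    have i1 : 6 * M + 1 + 2 = 6 * M + 3 := by ring
    have i2 : 6 * M + 1 + 1 + 2 = 6 * M + 4 := by ring
    have i3 : 6 * M + 1 + 1 + 1 + 2 = 6 * M + 5 := by ring
    have i4 : 6 * M + 1 + 1 + 1 + 1 + 2 = 6 * M + 6 := by ring
    have i5 : 6 * M + 1 + 1 + 1 + 1 + 1 + 2 = 6 * M + 7 := by ring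
    have i6 : 6 * M + 1 + 1 + 1 + 1 + 1 + 1 + 2 = 6 * M + 8 := by ring
    have j0 : 2 * (3 * M) + 2 = 6 * M + 2 := by ring
    have j1 : 2 * (3 * M + 1) + 2 = 6 * M + 4 := by ring
    have j2 : 2 * (3 * M + 1 + 1) + 2 = 6 * M + 6 := by ring
    have k0 : 3 * (2 * M) + 3 = 6 * M + 3 := by ring
    have k1 : 3 * (2 * M + 1) + 3 = 6 * M + 6 := by ring
    rw [i1, i2, i3, i4, i5, i6, j0, j1, j2, k0, k1]
    have a2 := hanti (6 * M + 2)
    have a3 := hanti (6 * M + 3)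
    have a4 := hanti (6 * M + 4)
    have a5 := hanti (6 * M + 5)
    have a6 := hanti (6 * M + 6)
    have a7 := hanti (6 * M + 7)
    have n2 := hnn (6 * M + 8)
    linarith

theorem seq_ineq (B : ℕ → ℤ) (hanti : ∀ j, B (j + 1) ≤ B j) (hnn : ∀ j, 0 ≤ B j) (M : ℕ) :
    ∑ j ∈ range (6 * M), B (j + 2) ≤
      6 * ∑ m ∈ range (3 * M), B (2 * m + 2) - 6 * ∑ m ∈ range (2 * M), B (3 * m + 3)
        + 2 * B 2 := by
  have h1 := seq_aux B hanti hnn M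
  have h2 := hnn (6 * M + 2)
  linarith

end MP_b83a82_al.Ab
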